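import Pool.Agent.Y281.SADP

set_option autoImplicit false

open Filter Topology

namespace Pool.Agent.Results.MP_235f01_an.NoUnconditionalBasis

universe u

/-- `e` is a Schauder basis of `X` which is 1-unconditional: changing signs of the coefficients of
a finite linear combination does not change its norm. -/
def IsOneUnconditionalBasis {X : Type u} [NormedAddCommGroup X] [NormedSpace ℝ X]
    (e : ℕ → X) : Prop :=
  (∀ x : X, ∃! a : ℕ → ℝ, Tendsto (fun n => ∑ i ∈ Finset.range n, a i • e i) atTop (𝓝 x)) ∧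
    ∀ (n : ℕ) (a ε : ℕ → ℝ), (∀ i, ε i = 1 ∨ ε i = -1) →
      ‖∑ i ∈ Finset.range n, (ε i * a i) • e i‖ = ‖∑ i ∈ Finset.range n, a i • e i‖

/-- The super alternative Daugavet property of an infinite-dimensional space. -/
def SuperADP (X : Type u) [NormedAddCommGroup X] [NormedSpace ℝ X] : Prop :=
  ¬ FiniteDimensional ℝ X ∧
    ∀ x : X, ‖x‖ = 1 → ∀ W : Set (WeakSpace ℝ X), IsOpen W →
      (∃ y : X, ‖y‖ ≤ 1 ∧ toWeakSpace ℝ X y ∈ W) →
        sSup {r : ℝ | ∃ y : X, ‖y‖ ≤ 1 ∧ toWeakSpace ℝ X y ∈ W ∧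
          r = max ‖x + y‖ ‖x - y‖} = 2

/-- No real Banach space with a 1-unconditional basis has the super alternative Daugavet
property. -/
theorem result (X : Type u) [NormedAddCommGroup X] [NormedSpace ℝ X] [CompleteSpace X]
    (e : ℕ → X) (he : IsOneUnconditionalBasis e) : ¬ SuperADP X := by
  classical
  rintro ⟨-, hS⟩
  have hU : Pool.Agent.Y281.UB.SignInv e := by
    intro s a ε hε
    have h1 := he.2 (s.sup id + 1) (fun i => if i ∈ s then a i else 0) ε hε
    have hs : s ⊆ Finset.range (s.sup id + 1) := by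
      intro n hn
      have h2 : n ≤ s.sup id := Finset.le_sup (f := id) hn
      rw [Finset.mem_range]; omega
    have h2 : ∑ n ∈ s, (ε n * a n) • e n =
        ∑ i ∈ Finset.range (s.sup id + 1), (ε i * (if i ∈ s then a i else 0)) • e i := by
      rw [← Finset.sum_subset hs (f := fun i => (ε i * (if i ∈ s then a i else 0)) • e i)]
      · exact Finset.sum_congr rfl fun i hi => by rw [if_pos hi]
      · intro i _ hi
        rw [if_neg hi, mul_zero, zero_smul]
    have h3 : ∑ n ∈ s, a n • e n =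
        ∑ i ∈ Finset.range (s.sup id + 1), (if i ∈ s then a i else 0) • e i := by
      rw [← Finset.sum_subset hs (f := fun i => (if i ∈ s then a i else 0) • e i)]
      · exact Finset.sum_congr rfl fun i hi => by rw [if_pos hi]
      · intro i _ hi
        rw [if_neg hi, zero_smul]
    rw [h2, h3]
    exact h1.le
  refine Pool.Agent.Y281.SADP.not_SAD
    (Pool.Agent.Y281.SADP.exists_unique_hasSum hU he.1) hU ?_
  intro x hx W hW hne ε hε
  have hne' : ∃ y : X, ‖y‖ ≤ 1 ∧ toWeakSpace ℝ X y ∈ W := by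
    obtain ⟨_, h1, y, hy, rfl⟩ := hne
    exact ⟨y, by simpa using hy, h1⟩
  have h1 := hS x hx W hW hne'
  have h2 : ({r : ℝ | ∃ y : X, ‖y‖ ≤ 1 ∧ toWeakSpace ℝ X y ∈ W ∧
      r = max ‖x + y‖ ‖x - y‖}).Nonempty := by
    obtain ⟨y, hy, hyW⟩ := hne'
    exact ⟨_, y, hy, hyW, rfl⟩
  obtain ⟨_, ⟨y, hy, hyW, rfl⟩, h3⟩ := exists_lt_of_lt_csSup h2
    (show 2 - ε < sSup _ by rw [h1]; linarith)
  refine ⟨y, hy, hyW, ?_⟩
  rcases lt_max_iff.1 h3 with h | h
  · exact Or.inl h
  · exact Or.inr h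

end Pool.Agent.Results.MP_235f01_an.NoUnconditionalBasis
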